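import Pool.Agent.Q77.BT.Main

/-!
# Beta and theta numbers of closed topological manifolds with small beta numbers

For all integers `1 ≤ m < n` there is `δ_m > 0` such that every closed topological `m`-manifold `M`
in `ℝⁿ` with the `(m, δ, R)`-linear approximation property for some `δ < δ_m` and `R > 0` satisfies
`θ^m_M(B(x, r)) ≤ (1 + δ² / 2) β^m_M(B(x, r))` for all `x ∈ M` and `r ∈ (0, R)`.

Proof (files in `Pool/Agent/Q77/BT/` and the files imported there). In a chart of `M` the projection
to an approximating plane has a Brouwer degree at each point and scale. A nonzero degree makes `M`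
dense in the plane, and then the neighbouring planes are close, so that the degree is not zero at all
nearby points and scales. If the degrees at one small scale were all zero then, after a small
perturbation without zeros on the walls of a cover by cylinders (quantitative transversality), the
degree of the chart itself would be zero, a contradiction. So `M` has no holes at small scales; walking
along the planes gives the same at all scales below `R`. A disc of the plane is then pushed
to `M` through all scales, and the fixed point theorem of Brouwer shows that the projection of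
`M ∩ B(x, r)` to an almost optimal plane covers the disc of radius `r √(1 - β²)`.
-/

set_option autoImplicit false

namespace Pool.Agent.Results.MP_e0d06b_an.BetaThetaManifolds

open Metric Set

/-- The number `β^m_X(B)` of the closed ball `B` of centre `x` and radius `r`: the infimum over the
subspaces `P` of dimension `m` of `sup {dist (z, x + P) : z ∈ B ∩ X}`, divided by `r`. -/
noncomputable def beta {n : ℕ} (m : ℕ) (X : Set (EuclideanSpace ℝ (Fin n)))
    (x : EuclideanSpace ℝ (Fin n)) (r : ℝ) : ℝ :=
  r⁻¹ * sInf {s : ℝ | ∃ P : Submodule ℝ (EuclideanSpace ℝ (Fin n)), Module.finrank ℝ P = m ∧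
    s = sSup {d : ℝ | ∃ z ∈ closedBall x r ∩ X, d = infDist z {w | w - x ∈ P}}}

/-- The number `θ^m_X(B)` of the closed ball `B` of centre `x` and radius `r`: the infimum over the
subspaces `P` of dimension `m` of the Hausdorff distance of `(x + P) ∩ B` and `X ∩ B`, divided by
`r`. -/
noncomputable def theta {n : ℕ} (m : ℕ) (X : Set (EuclideanSpace ℝ (Fin n)))
    (x : EuclideanSpace ℝ (Fin n)) (r : ℝ) : ℝ :=
  r⁻¹ * sInf {s : ℝ | ∃ P : Submodule ℝ (EuclideanSpace ℝ (Fin n)), Module.finrank ℝ P = m ∧
    s = hausdorffDist ({w | w - x ∈ P} ∩ closedBall x r) (X ∩ closedBall x r)}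

/-- The `(m, δ, R)`-linear approximation property. -/
def LAP {n : ℕ} (m : ℕ) (δ R : ℝ) (X : Set (EuclideanSpace ℝ (Fin n))) : Prop :=
  ∀ x ∈ X, ∀ r : ℝ, 0 < r → r < R → beta m X x r < δ

/-- The answer to the question is yes, with `φ_m(t) = t² / 2`. -/
theorem result : ∀ m n : ℕ, 1 ≤ m → m + 1 ≤ n →
    ∃ δm : ℝ, 0 < δm ∧ δm < 1 ∧ ∀ M : Set (EuclideanSpace ℝ (Fin n)), IsCompact M →
      Nonempty (ChartedSpace (EuclideanSpace ℝ (Fin m)) M) →
      ∀ δ R : ℝ, 0 < δ → δ < δm → 0 < R → LAP m δ R M →
        ∀ x ∈ M, ∀ r : ℝ, 0 < r → r < R →
          theta m M x r ≤ (1 + δ ^ 2 / 2) * beta m M x r := by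
  intro m n hm hmn
  exact Pool.Agent.Q77.BT.main m n hm (by omega)

end Pool.Agent.Results.MP_e0d06b_an.BetaThetaManifolds
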